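import Pool.Agent.LE.StmtsIF
import Pool.Agent.Helper28_LEW.OSCB

/-!
Row NLB of table lir: neighbours are linked.
-/

set_option autoImplicit false

open scoped Topology ENNReal BigOperators
open MeasureTheory Filter ProbabilityTheory

noncomputable section

namespace Pool.Agent.LE.IR.H34

open Pool.Agent.Anderson Pool.Agent.Loc Pool.Agent.Mob Pool.Agent.Helper54.Bal Pool.Agent.LY
  Pool.Agent.LE.H54 Pool.Agent.LE.H26U Pool.Agent.LE.H3W Pool.Agent.LE.H28W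

theorem nlb : Pool.Agent.LE.IR.NlbStmt := by
  intro d hd
  have hB : (0 : ℝ) < 2 * d + 2 := by positivity
  obtain ⟨K, hK, hlow⟩ := lowPB hd hB
  refine ⟨((5 ^ d : ℕ) : ℝ), K + 1, ?_, by linarith, ?_⟩
  · exact_mod_cast Nat.one_le_pow _ _ (by norm_num)
  intro σ E τ N x y hσ hσ1 hE hτ hx hy hxy
  have hs0 : 0 < |σ| := abs_pos.2 hσ
  have h1 := hlow σ E hσ hσ1 hE (Pool.Agent.Anderson.box (0 : Site d) N) x y hx hy (Or.inr hxy)
  have mg : Measurable fun V : Site d → ℝ => gr V (Pool.Agent.Anderson.box (0 : Site d) N) E x y :=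
    measurable_gr _ E x y
  have mf : Measurable fun V : Site d → ℝ =>
      (ENNReal.ofReal |gr V (Pool.Agent.Anderson.box (0 : Site d) N) E x y|) ^ (-(1 / 4) : ℝ) := by
    have h2 : Measurable fun V : Site d → ℝ =>
        ENNReal.ofReal |gr V (Pool.Agent.Anderson.box (0 : Site d) N) E x y| :=
      (mg.norm).ennreal_ofReal
    exact h2.pow_const _
  have h2 := lint_PP (ν := gl σ) (Pool.Agent.Anderson.box (0 : Site d) N) mf
    (fun V V' hV => by rw [gr_congr hV])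
  have h3 := mul_meas_ge_le_lintegral (μ := PP d (gl σ)) mf ((ENNReal.ofReal τ) ^ (-(1 / 4) : ℝ))
  rw [h2] at h3
  have hsub : {V : Site d → ℝ | ¬ τ ≤ |gr V (Pool.Agent.Anderson.box (0 : Site d) N) E x y|} ⊆
      {V | (ENNReal.ofReal τ) ^ (-(1 / 4) : ℝ) ≤
        (ENNReal.ofReal |gr V (Pool.Agent.Anderson.box (0 : Site d) N) E x y|) ^ (-(1 / 4) : ℝ)} := by
    intro V hV
    have hV' : ¬ τ ≤ |gr V (Pool.Agent.Anderson.box (0 : Site d) N) E x y| := hV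
    rw [not_le] at hV'
    show (ENNReal.ofReal τ) ^ (-(1 / 4) : ℝ) ≤
        (ENNReal.ofReal |gr V (Pool.Agent.Anderson.box (0 : Site d) N) E x y|) ^ (-(1 / 4) : ℝ)
    rw [ENNReal.rpow_neg, ENNReal.rpow_neg]
    exact ENNReal.inv_le_inv.2 (ENNReal.rpow_le_rpow (ENNReal.ofReal_le_ofReal hV'.le) (by norm_num))
  have hcpos : (ENNReal.ofReal τ) ^ (-(1 / 4) : ℝ) = ENNReal.ofReal (τ ^ (-(1 / 4) : ℝ)) := by
    rw [ENNReal.ofReal_rpow_of_pos hτ]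
  have h4 : PP d (gl σ) {V | ¬ τ ≤ |gr V (Pool.Agent.Anderson.box (0 : Site d) N) E x y|} ≤
      PP d (gl σ) {V | (ENNReal.ofReal τ) ^ (-(1 / 4) : ℝ) ≤
        (ENNReal.ofReal |gr V (Pool.Agent.Anderson.box (0 : Site d) N) E x y|) ^ (-(1 / 4) : ℝ)} :=
    measure_mono hsub
  have h5 : ENNReal.ofReal (τ ^ (-(1 / 4) : ℝ)) *
      PP d (gl σ) {V | ¬ τ ≤ |gr V (Pool.Agent.Anderson.box (0 : Site d) N) E x y|} ≤
      ENNReal.ofReal (K * (1 / |σ|) ^ (5 ^ d)) := by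
    rw [← hcpos]
    exact (mul_le_mul_right h4 _).trans (h3.trans h1)
  have hτ4 : 0 < τ ^ (1 / 4 : ℝ) := Real.rpow_pos_of_pos hτ _
  have h6 : ENNReal.ofReal (τ ^ (1 / 4 : ℝ)) * (ENNReal.ofReal (τ ^ (-(1 / 4) : ℝ)) *
      PP d (gl σ) {V | ¬ τ ≤ |gr V (Pool.Agent.Anderson.box (0 : Site d) N) E x y|}) =
      PP d (gl σ) {V | ¬ τ ≤ |gr V (Pool.Agent.Anderson.box (0 : Site d) N) E x y|} := by
    rw [← mul_assoc, ← ENNReal.ofReal_mul hτ4.le, ← Real.rpow_add hτ]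
    norm_num
  calc PP d (gl σ) {V | ¬ τ ≤ |gr V (Pool.Agent.Anderson.box (0 : Site d) N) E x y|}
      = ENNReal.ofReal (τ ^ (1 / 4 : ℝ)) * (ENNReal.ofReal (τ ^ (-(1 / 4) : ℝ)) *
      PP d (gl σ) {V | ¬ τ ≤ |gr V (Pool.Agent.Anderson.box (0 : Site d) N) E x y|}) := h6.symm
    _ ≤ ENNReal.ofReal (τ ^ (1 / 4 : ℝ)) * ENNReal.ofReal (K * (1 / |σ|) ^ (5 ^ d)) :=
        mul_le_mul_right h5 _
    _ = ENNReal.ofReal (τ ^ (1 / 4 : ℝ) * (K * (1 / |σ|) ^ (5 ^ d))) :=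
        (ENNReal.ofReal_mul hτ4.le).symm
    _ ≤ ENNReal.ofReal ((K + 1) * |σ| ^ (-((5 ^ d : ℕ) : ℝ)) * τ ^ (1 / 4 : ℝ)) := by
        apply ENNReal.ofReal_le_ofReal
        have h8 : |σ| ^ (-((5 ^ d : ℕ) : ℝ)) = (1 / |σ|) ^ (5 ^ d) := by
          rw [Real.rpow_neg hs0.le, Real.rpow_natCast, one_div, inv_pow]
        rw [h8]
        have hP : 0 < (1 / |σ|) ^ (5 ^ d) := by positivity
        have : K * (1 / |σ|) ^ (5 ^ d) ≤ (K + 1) * (1 / |σ|) ^ (5 ^ d) :=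
          mul_le_mul_of_nonneg_right (by linarith) hP.le
        calc τ ^ (1 / 4 : ℝ) * (K * (1 / |σ|) ^ (5 ^ d))
            ≤ τ ^ (1 / 4 : ℝ) * ((K + 1) * (1 / |σ|) ^ (5 ^ d)) :=
              mul_le_mul_of_nonneg_left this hτ4.le
          _ = _ := by ring

end Pool.Agent.LE.IR.H34
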